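import Pool.Agent.Y524I.Rec
import Pool.Agent.Y462.SS.St

/-!
# Iterated monodromy groups of expanding maps

Owner helper524.
-/

set_option autoImplicit false

open Classical

namespace Pool.Agent.Y524I

open Pool.Agent.Y462.SS
open scoped ENNReal

variable {M M₁ : Type} [TopologicalSpace M] [TopologicalSpace M₁]
variable {f : M₁ → M} (cov : IsCoveringMap f) (ι : C(M₁, M))

/-- all lifts of the loop `δ` to the iterates of level at most `n` of the correspondence `(f, ι)`
are closed: every lift of `δ` by `f` is closed, and its image by `ι` has the same property up to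
level `n - 1` -/
def Triv : ℕ → (m : M) → Path.Homotopic.Quotient m m → Prop
  | 0, _, _ => True
  | n + 1, m, δ => ∀ y : f ⁻¹' {m}, ∃ Γ : Path.Homotopic.Quotient y.1 y.1,
      Γ.map (fC cov) = δ.cast y.2 y.2 ∧ Triv n (ι y.1) (Γ.map ι)

theorem triv_succ (n : ℕ) (m : M) (δ : Path.Homotopic.Quotient m m) :
    Triv cov ι (n + 1) m δ ↔ ∀ y : f ⁻¹' {m}, ∃ Γ : Path.Homotopic.Quotient y.1 y.1,
      Γ.map (fC cov) = δ.cast y.2 y.2 ∧ Triv cov ι n (ι y.1) (Γ.map ι) := by
  rw [Triv]

/-- the length of a path, measured after the map `r` to a metric space -/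
noncomputable def plen {O : Type} [PseudoEMetricSpace O] (r : M → O) {a b : M} (p : Path a b) :
    ℝ≥0∞ :=
  eVariationOn (fun s : unitInterval => r (p s)) Set.univ

variable (t : M) (ℓ : ∀ x : f ⁻¹' {t}, Path.Homotopic.Quotient t (ι x.1))

theorem act_of_triv (w : List (f ⁻¹' {t})) : ∀ (m : M) (q : Path.Homotopic.Quotient t m)
    (δ : Path.Homotopic.Quotient m m), Triv cov ι w.length m δ →
    act (psi cov ι t ℓ) (cj t q δ) w = w := by
  induction w with
  | nil =>
    intro m q δ _
    rw [act_nil]
  | cons x w ih =>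
    intro m q δ h
    rw [List.length_cons, triv_succ] at h
    obtain ⟨Γ, h1, h2⟩ := h (cov.monodromy q x)
    obtain ⟨h3, h4⟩ := psi_cj cov ι t ℓ q δ x Γ h1
    rw [act_cons, h3, h4, ih _ _ _ h2]

theorem closed_of_perm {m : M} (q : Path.Homotopic.Quotient t m)
    (δ : Path.Homotopic.Quotient m m) (x : f ⁻¹' {t})
    (h : (psi cov ι t ℓ (cj t q δ)).p x = x) :
    cov.monodromy δ (cov.monodromy q x) = cov.monodromy q x := by
  have h1 : cov.monodromy ((q.trans δ).trans q.symm) x = x := h
  rw [cov.monodromy_trans_apply, cov.monodromy_trans_apply] at h1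
  have h2 := congrArg (cov.monodromy q) h1
  rwa [← cov.monodromy_trans_apply, Path.Homotopic.Quotient.symm_trans, cov.monodromy_refl] at h2

theorem exists_closed {m : M} (δ : Path.Homotopic.Quotient m m) (y : f ⁻¹' {m})
    (h : cov.monodromy δ y = y) : ∃ Γ : Path.Homotopic.Quotient y.1 y.1,
      Γ.map (fC cov) = δ.cast y.2 y.2 := by
  refine ⟨(cov.liftPathQuotient δ y).cast rfl (congrArg Subtype.val h.symm), ?_⟩
  rw [Path.Homotopic.Quotient.map_cast]
  have h1 := lift_spec cov δ y
  rw [h1]
  exact Path.Homotopic.Quotient.cast_cast δ y.2 (cov.monodromy δ y).2 _ _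

theorem triv_of_act (n : ℕ) : ∀ (m : M) (q : Path.Homotopic.Quotient t m)
    (δ : Path.Homotopic.Quotient m m),
    (∀ w : List (f ⁻¹' {t}), w.length = n → act (psi cov ι t ℓ) (cj t q δ) w = w) →
    Triv cov ι n m δ := by
  induction n with
  | zero =>
    intro m q δ _
    rw [Triv]
    trivial
  | succ n ih =>
    intro m q δ h
    rw [triv_succ]
    intro y
    obtain ⟨x, rfl⟩ := (cov.monodromy_bijective q).2 y
    have h1 : (psi cov ι t ℓ (cj t q δ)).p x = x := by
      have h2 := h (x :: List.replicate n x) (by simp)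
      rw [act_cons] at h2
      exact (List.cons.inj h2).1
    obtain ⟨Γ, hΓ⟩ := exists_closed cov δ _ (closed_of_perm cov ι t ℓ q δ x h1)
    refine ⟨Γ, hΓ, ih _ ((ℓ x).trans ((cov.liftPathQuotient q x).map ι)) _ ?_⟩
    intro w hw
    obtain ⟨h3, h4⟩ := psi_cj cov ι t ℓ q δ x Γ hΓ
    have h2 := h (x :: w) (by rw [List.length_cons, hw])
    rw [act_cons, h4] at h2
    exact (List.cons.inj h2).2

theorem tau_cj {m : M} (q : Path.Homotopic.Quotient t m) (δ : Path.Homotopic.Quotient m m) :
    tau (psi cov ι t ℓ) (cj t q δ) = 1 ↔ ∀ n, Triv cov ι n m δ := by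
  constructor
  · intro h n
    refine triv_of_act cov ι t ℓ n m q δ fun w _ => ?_
    exact congrFun (congrArg (fun g : T (f ⁻¹' {t}) => (g.1 : List (f ⁻¹' {t}) →
      List (f ⁻¹' {t}))) h) w
  · intro h
    apply Subtype.ext
    apply Equiv.ext
    intro w
    exact act_of_triv cov ι t ℓ w m q δ (h w.length)

theorem cj_refl (γ : FundamentalGroup M t) : cj t (Path.Homotopic.Quotient.refl t) γ = γ := by
  change ((Path.Homotopic.Quotient.refl t).trans γ).trans (Path.Homotopic.Quotient.refl t).symm = γ
  have h1 : (Path.Homotopic.Quotient.refl t).symm = Path.Homotopic.Quotient.refl t := by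
    have h2 := Path.Homotopic.Quotient.trans_symm (Path.Homotopic.Quotient.refl t)
    rwa [Path.Homotopic.Quotient.refl_trans] at h2
  rw [h1, Path.Homotopic.Quotient.refl_trans, Path.Homotopic.Quotient.trans_refl]

theorem cj_one {m : M} (q : Path.Homotopic.Quotient t m) :
    cj t q (Path.Homotopic.Quotient.refl m) = 1 := by
  change (q.trans (Path.Homotopic.Quotient.refl m)).trans q.symm = Path.Homotopic.Quotient.refl t
  rw [Path.Homotopic.Quotient.trans_refl, Path.Homotopic.Quotient.trans_symm]

variable {O : Type} [PseudoEMetricSpace O] (r : M → O)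

/-- short loops that act trivially die -/
theorem dies_short {c : ℝ≥0∞} {ε : ℝ≥0∞}
    (hc : ∀ {a b : M₁} (P : Path a b),
      plen r (P.map ι.continuous) ≤ c * plen r (P.map cov.continuous))
    (hε : ∀ (m : M) (p : Path m m), plen r p < ε →
      (∀ n, Triv cov ι n m (Path.Homotopic.Quotient.mk p)) →
      Path.Homotopic.Quotient.mk p = Path.Homotopic.Quotient.refl m) (n : ℕ) :
    ∀ (m : M) (p : Path m m) (q : Path.Homotopic.Quotient t m),
      c ^ n * plen r p < ε → (∀ n, Triv cov ι n m (Path.Homotopic.Quotient.mk p)) →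
      Dies (psi cov ι t ℓ) (cj t q (Path.Homotopic.Quotient.mk p)) := by
  induction n with
  | zero =>
    intro m p q h1 h2
    rw [pow_zero, one_mul] at h1
    rw [hε m p h1 h2, cj_one]
    exact Dies.one
  | succ n ih =>
    intro m p q h1 h2
    have key : ∀ x : f ⁻¹' {t}, (psi cov ι t ℓ (cj t q (Path.Homotopic.Quotient.mk p))).p x = x ∧
        Dies (psi cov ι t ℓ) ((psi cov ι t ℓ (cj t q (Path.Homotopic.Quotient.mk p))).s x) := by
      intro x
      have hy : cov.monodromy (Path.Homotopic.Quotient.mk p) (cov.monodromy q x) =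
          cov.monodromy q x := by
        have h3 := h2 1
        rw [triv_succ] at h3
        obtain ⟨Γ, h4, -⟩ := h3 (cov.monodromy q x)
        exact cov.monodromy_eq_of_map_eq Γ h4
      generalize hyy : cov.monodromy q x = y at hy
      -- the lift of `p` at `y`
      have hy0 : p 0 = f y.1 := p.source.trans y.2.symm
      have hP1 : cov.liftPath p y.1 hy0 1 = y.1 := congrArg Subtype.val hy
      let P : Path y.1 y.1 := ⟨cov.liftPath p y.1 hy0, cov.liftPath_zero p y.1 hy0, hP1⟩
      have hPf : ∀ s, f (P s) = p s := fun s => congrFun (cov.liftPath_lifts p y.1 hy0) s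
      have hmap : (Path.Homotopic.Quotient.mk P).map (fC cov) =
          (Path.Homotopic.Quotient.mk p).cast y.2 y.2 := by
        refine congrArg Path.Homotopic.Quotient.mk ?_
        ext s
        exact hPf s
      have hlen : plen r (P.map cov.continuous) = plen r p := by
        unfold plen
        congr 1
        funext s
        exact congrArg r (hPf s)
      have hlen2 : c ^ n * plen r (P.map ι.continuous) < ε := by
        refine lt_of_le_of_lt ?_ h1
        calc c ^ n * plen r (P.map ι.continuous) ≤ c ^ n * (c * plen r (P.map cov.continuous)) :=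
              mul_le_mul_right (hc P) _
          _ = c ^ (n + 1) * plen r p := by rw [hlen, pow_succ, mul_assoc]
      have htriv : ∀ k, Triv cov ι k (ι y.1) (Path.Homotopic.Quotient.mk (P.map ι.continuous)) := by
        intro k
        have h3 := h2 (k + 1)
        rw [triv_succ] at h3
        obtain ⟨Γ, h4, h5⟩ := h3 y
        have h6 : Γ = Path.Homotopic.Quotient.mk P :=
          cov.injective_path_homotopic_map _ _ (h4.trans hmap.symm)
        rw [h6] at h5
        exact h5
      subst hyy
      obtain ⟨h7, h8⟩ := psi_cj cov ι t ℓ q (Path.Homotopic.Quotient.mk p) x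
        (Path.Homotopic.Quotient.mk P) hmap
      refine ⟨h7, ?_⟩
      rw [h8]
      exact ih _ (P.map ι.continuous) _ hlen2 htriv
    apply Dies.step
    · apply Equiv.ext
      intro x
      exact (key x).1
    · intro x
      exact (key x).2

/-- **iterated monodromy groups of expanding correspondences** -/
theorem img_closed (hLIM : S_LIM) (C : ∀ (G : Type) [Group G], Prop) (hC : Closed C)
    (hj : ∀ x : f ⁻¹' {t}, Joined t (ι x.1)) (hfin : Finite (f ⁻¹' {t}))
    {c : ℝ≥0∞} (hc1 : c < 1)
    (hc : ∀ {a b : M₁} (P : Path a b),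
      plen r (P.map ι.continuous) ≤ c * plen r (P.map cov.continuous))
    {ε : ℝ≥0∞} (hε0 : 0 < ε)
    (hε : ∀ (m : M) (p : Path m m), plen r p < ε →
      (∀ n, Triv cov ι n m (Path.Homotopic.Quotient.mk p)) →
      Path.Homotopic.Quotient.mk p = Path.Homotopic.Quotient.refl m)
    (hrect : ∀ γ : Path.Homotopic.Quotient t t, ∃ p : Path t t,
      Path.Homotopic.Quotient.mk p = γ ∧ plen r p ≠ ⊤)
    (hG : C (FundamentalGroup M t)) :
    ∃ (K : Subgroup (FundamentalGroup M t)) (_ : K.Normal),
      (∀ γ, γ ∈ K ↔ ∀ n, Triv cov ι n t γ) ∧ C (FundamentalGroup M t ⧸ K) := by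
  let ℓ : ∀ x : f ⁻¹' {t}, Path.Homotopic.Quotient t (ι x.1) := fun x =>
    Path.Homotopic.Quotient.mk (hj x).somePath
  have h1 : ∀ γ : FundamentalGroup M t, tau (psi cov ι t ℓ) γ = 1 ↔ ∀ n, Triv cov ι n t γ := by
    intro γ
    have h2 := tau_cj cov ι t ℓ (Path.Homotopic.Quotient.refl t) γ
    rwa [cj_refl] at h2
  refine ⟨(tau (psi cov ι t ℓ)).ker, inferInstance, fun γ => ?_, ?_⟩
  · rw [MonoidHom.mem_ker]
    exact h1 γ
  · refine hLIM C hC (f ⁻¹' {t}) (FundamentalGroup M t) hfin (psi cov ι t ℓ) hG _ ?_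
    intro γ
    rw [MonoidHom.mem_ker]
    refine ⟨fun h => ?_, tau_of_dies _⟩
    obtain ⟨p, hp, hp'⟩ := hrect γ
    have h3 : ∃ n : ℕ, c ^ n * plen r p < ε := by
      have h4 : Filter.Tendsto (fun n : ℕ => c ^ n * plen r p) Filter.atTop
          (nhds (0 * plen r p)) :=
        ENNReal.Tendsto.mul_const (ENNReal.tendsto_pow_atTop_nhds_zero_of_lt_one hc1)
          (Or.inr hp')
      rw [zero_mul] at h4
      exact (h4.eventually (gt_mem_nhds hε0)).exists
    obtain ⟨n, hn⟩ := h3
    have h5 := dies_short cov ι t ℓ r hc hε n t p (Path.Homotopic.Quotient.refl t) hn (by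
      rw [hp]
      exact (h1 γ).1 h)
    rw [hp] at h5
    have h6 := cj_refl t γ
    rw [← h6]
    exact h5

end Pool.Agent.Y524I
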