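import Pool.Agent.Y462.SS.Tree
import Mathlib.Topology.Homotopy.Lifting

/-!
# The recursion of the fundamental group given by a covering and a continuous map

Owner helper524.
-/

set_option autoImplicit false

open Classical

namespace Pool.Agent.Y524I

open Pool.Agent.Y462.SS

variable {M M₁ : Type} [TopologicalSpace M] [TopologicalSpace M₁]

section quot

variable {a b c : M}

theorem map_trans' {N : Type} [TopologicalSpace N] (p : Path.Homotopic.Quotient a b)
    (q : Path.Homotopic.Quotient b c) (g : C(M, N)) :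
    (p.trans q).map g = (p.map g).trans (q.map g) := by
  obtain ⟨p⟩ := p
  obtain ⟨q⟩ := q
  exact congrArg Path.Homotopic.Quotient.mk (Path.map_trans p q g.continuous)

theorem map_symm' {N : Type} [TopologicalSpace N] (p : Path.Homotopic.Quotient a b)
    (g : C(M, N)) : p.symm.map g = (p.map g).symm := by
  obtain ⟨p⟩ := p
  rfl

theorem map_refl' {N : Type} [TopologicalSpace N] (g : C(M, N)) :
    (Path.Homotopic.Quotient.refl a).map g = Path.Homotopic.Quotient.refl (g a) := rfl

theorem cast_trans' {a' b' c' : M} (p : Path.Homotopic.Quotient a b)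
    (q : Path.Homotopic.Quotient b c) (ha : a' = a) (hb : b' = b) (hc : c' = c) :
    (p.trans q).cast ha hc = (p.cast ha hb).trans (q.cast hb hc) := by
  subst ha hb hc
  simp

theorem cast_symm' {a' b' : M} (p : Path.Homotopic.Quotient a b) (ha : a' = a) (hb : b' = b) :
    p.symm.cast hb ha = (p.cast ha hb).symm := by
  subst ha hb
  simp

theorem cast_refl' {a' : M} (ha : a' = a) :
    (Path.Homotopic.Quotient.refl a).cast ha ha = Path.Homotopic.Quotient.refl a' := by
  subst ha
  rfl

theorem symm_symm' (p : Path.Homotopic.Quotient a b) : p.symm.symm = p := by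
  obtain ⟨p⟩ := p
  exact congrArg Path.Homotopic.Quotient.mk (Path.symm_symm p)

theorem trans_symm_rev (p : Path.Homotopic.Quotient a b) (q : Path.Homotopic.Quotient b c) :
    (p.trans q).symm = q.symm.trans p.symm := by
  obtain ⟨p⟩ := p
  obtain ⟨q⟩ := q
  exact congrArg Path.Homotopic.Quotient.mk (Path.trans_symm p q)

end quot

/-- `f` as a bundled map -/
def fC {f : M₁ → M} (cov : IsCoveringMap f) : C(M₁, M) := ⟨f, cov.continuous⟩

variable {f : M₁ → M} (cov : IsCoveringMap f) (ι : C(M₁, M)) (t : M)

/-- the section between two points of the fibre -/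
noncomputable def sc (ℓ : ∀ x : f ⁻¹' {t}, Path.Homotopic.Quotient t (ι x.1)) (x y : f ⁻¹' {t})
    (Γ : Path.Homotopic.Quotient x.1 y.1) : Path.Homotopic.Quotient t t :=
  ((ℓ x).trans (Γ.map ι)).trans (ℓ y).symm

variable (ℓ : ∀ x : f ⁻¹' {t}, Path.Homotopic.Quotient t (ι x.1))

/-- the section of a loop -/
noncomputable def sF (γ : FundamentalGroup M t) (x : f ⁻¹' {t}) : FundamentalGroup M t :=
  sc ι t ℓ x (cov.monodromy γ x) (cov.liftPathQuotient γ x)

theorem sF_char (γ : FundamentalGroup M t) (x y : f ⁻¹' {t})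
    (Γ : Path.Homotopic.Quotient x.1 y.1)
    (h : Γ.map (fC cov) = Path.Homotopic.Quotient.cast γ x.2 y.2) :
    cov.monodromy γ x = y ∧ sF cov ι t ℓ γ x = sc ι t ℓ x y Γ := by
  have hy : cov.monodromy γ x = y := cov.monodromy_eq_of_map_eq Γ h
  subst hy
  refine ⟨rfl, ?_⟩
  have h1 : Γ = cov.liftPathQuotient γ x :=
    cov.injective_path_homotopic_map _ _ (h.trans (cov.map_liftPathQuotient γ x).symm)
  rw [h1]
  rfl

theorem lift_spec {a b : M} (γ : Path.Homotopic.Quotient a b) (x : f ⁻¹' {a}) :
    (cov.liftPathQuotient γ x).map (fC cov) = γ.cast x.2 (cov.monodromy γ x).2 :=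
  cov.map_liftPathQuotient γ x

/-- the recursion -/
noncomputable def psi : FundamentalGroup M t →* Wr (f ⁻¹' {t}) (FundamentalGroup M t) where
  toFun γ := ⟨sF cov ι t ℓ γ, cov.monodromyPerm t γ⟩
  map_one' := by
    apply Wr.ext
    · funext x
      have h1 := (sF_char cov ι t ℓ 1 x x (Path.Homotopic.Quotient.refl x.1) ?_).2
      · change sF cov ι t ℓ 1 x = 1
        rw [h1]
        change (((ℓ x).trans (Path.Homotopic.Quotient.refl (ι x.1))).trans (ℓ x).symm) = _
        rw [Path.Homotopic.Quotient.trans_refl, Path.Homotopic.Quotient.trans_symm]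
        rfl
      · rw [map_refl']
        exact (cast_refl' x.2).symm
    · exact map_one _
  map_mul' γ δ := by
    apply Wr.ext
    · funext x
      change sF cov ι t ℓ (γ * δ) x = sF cov ι t ℓ γ (cov.monodromy δ x) * sF cov ι t ℓ δ x
      have h1 := (sF_char cov ι t ℓ (γ * δ) x (cov.monodromy γ (cov.monodromy δ x))
        ((cov.liftPathQuotient δ x).trans (cov.liftPathQuotient γ (cov.monodromy δ x))) ?_).2
      · rw [h1]
        change ((ℓ x).trans (((cov.liftPathQuotient δ x).trans
            (cov.liftPathQuotient γ (cov.monodromy δ x))).map ι)).trans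
              (ℓ (cov.monodromy γ (cov.monodromy δ x))).symm =
          (((ℓ x).trans ((cov.liftPathQuotient δ x).map ι)).trans
            (ℓ (cov.monodromy δ x)).symm).trans
          (((ℓ (cov.monodromy δ x)).trans
            ((cov.liftPathQuotient γ (cov.monodromy δ x)).map ι)).trans
            (ℓ (cov.monodromy γ (cov.monodromy δ x))).symm)
        rw [map_trans']
        simp only [Path.Homotopic.Quotient.trans_assoc]
        rw [← Path.Homotopic.Quotient.trans_assoc (ℓ (cov.monodromy δ x)).symm
          (ℓ (cov.monodromy δ x)), Path.Homotopic.Quotient.symm_trans,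
          Path.Homotopic.Quotient.refl_trans]
      · rw [map_trans', lift_spec, lift_spec]
        exact (cast_trans' (a := t) (b := t) (c := t) δ γ x.2 (cov.monodromy δ x).2
          (cov.monodromy γ (cov.monodromy δ x)).2).symm
    · exact map_mul _ γ δ

theorem psi_p (γ : FundamentalGroup M t) (x : f ⁻¹' {t}) :
    (psi cov ι t ℓ γ).p x = cov.monodromy γ x := rfl

theorem psi_s (γ : FundamentalGroup M t) (x : f ⁻¹' {t}) :
    (psi cov ι t ℓ γ).s x = sF cov ι t ℓ γ x := rfl

/-! ## loops at other points -/

/-- the loop at `t` given by a path `q` to `m` and a loop `δ` at `m` -/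
noncomputable def cj {m : M} (q : Path.Homotopic.Quotient t m) (δ : Path.Homotopic.Quotient m m) :
    FundamentalGroup M t := (q.trans δ).trans q.symm

theorem lift_cj {m : M} (q : Path.Homotopic.Quotient t m) (δ : Path.Homotopic.Quotient m m)
    (x : f ⁻¹' {t}) (Γ : Path.Homotopic.Quotient (cov.monodromy q x).1 (cov.monodromy q x).1)
    (h : Γ.map (fC cov) = δ.cast (cov.monodromy q x).2 (cov.monodromy q x).2) :
    (((cov.liftPathQuotient q x).trans Γ).trans (cov.liftPathQuotient q x).symm).map (fC cov) =
      Path.Homotopic.Quotient.cast (cj t q δ) x.2 x.2 := by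
  rw [map_trans', map_trans', map_symm', lift_spec, h]
  change _ = Path.Homotopic.Quotient.cast ((q.trans δ).trans q.symm) x.2 x.2
  have h1 : Path.Homotopic.Quotient.cast q.symm (cov.monodromy q x).2 x.2 =
      (Path.Homotopic.Quotient.cast q x.2 (cov.monodromy q x).2).symm :=
    cast_symm' q x.2 (cov.monodromy q x).2
  rw [cast_trans' (q.trans δ) q.symm x.2 (cov.monodromy q x).2 x.2,
    cast_trans' q δ x.2 (cov.monodromy q x).2 (cov.monodromy q x).2, h1]
  rfl

theorem psi_cj {m : M} (q : Path.Homotopic.Quotient t m) (δ : Path.Homotopic.Quotient m m)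
    (x : f ⁻¹' {t}) (Γ : Path.Homotopic.Quotient (cov.monodromy q x).1 (cov.monodromy q x).1)
    (h : Γ.map (fC cov) = δ.cast (cov.monodromy q x).2 (cov.monodromy q x).2) :
    (psi cov ι t ℓ (cj t q δ)).p x = x ∧
    (psi cov ι t ℓ (cj t q δ)).s x =
      cj t ((ℓ x).trans ((cov.liftPathQuotient q x).map ι)) (Γ.map ι) := by
  obtain ⟨h1, h2⟩ := sF_char cov ι t ℓ (cj t q δ) x x _ (lift_cj cov t q δ x Γ h)
  refine ⟨h1, h2.trans ?_⟩
  change ((ℓ x).trans ((((cov.liftPathQuotient q x).trans Γ).trans
    (cov.liftPathQuotient q x).symm).map ι)).trans (ℓ x).symm =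
    (((ℓ x).trans ((cov.liftPathQuotient q x).map ι)).trans (Γ.map ι)).trans
      ((ℓ x).trans ((cov.liftPathQuotient q x).map ι)).symm
  rw [map_trans', map_trans', map_symm', trans_symm_rev]
  simp only [Path.Homotopic.Quotient.trans_assoc]

end Pool.Agent.Y524I
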